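import Pool.Agent.H70.PT.Targets

/-!
# De Mol's tag system S₂ on products of random blocks (problem MP_c95a35_lc): row MNY
-/

set_option autoImplicit false

open List Finset Pool.Agent.H68.TG Pool.Agent.H75.RW Pool.Agent.H70.PT

namespace Pool.Agent.H89.PT

/-- exponential against quadratic -/
theorem exp_vs_sq (ε : ℝ) (hε : 0 < ε) : ∃ n₀ : ℕ, ∀ n ≥ n₀,
    144 * ((n : ℝ) + 1) ^ 2 ≤ (2 : ℝ) ^ (ε * n) := by
  have h1 : (1 : ℝ) < (2 : ℝ) ^ ε := Real.one_lt_rpow (by norm_num) hε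
  have h0 : (0 : ℝ) < (2 : ℝ) ^ ε := by linarith
  have ht := tendsto_pow_const_div_const_pow_of_one_lt 2 h1
  have hc : (0 : ℝ) < 1 / (144 * (2 : ℝ) ^ ε) := by positivity
  have he := ht.eventually (gt_mem_nhds hc)
  obtain ⟨N, hN⟩ := Filter.eventually_atTop.1 he
  refine ⟨N, fun n hn => ?_⟩
  have h := hN (n + 1) (by omega)
  have hp : (0 : ℝ) < ((2 : ℝ) ^ ε) ^ (n + 1) := by positivity
  rw [div_lt_div_iff₀ hp (by positivity)] at h
  have h2 : ((2 : ℝ) ^ ε) ^ (n + 1) = (2 : ℝ) ^ (ε * n) * (2 : ℝ) ^ ε := by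
    rw [pow_succ, ← Real.rpow_natCast, ← Real.rpow_mul (by norm_num)]
  rw [h2] at h
  push_cast at h
  have h3 : (144 * ((n : ℝ) + 1) ^ 2) * (2 : ℝ) ^ ε ≤ (2 : ℝ) ^ (ε * n) * (2 : ℝ) ^ ε := by
    nlinarith [h]
  exact le_of_mul_le_mul_right h3 h0

/-- monotonicity of the count -/
theorem NN_mono (r m : ℕ) (p q : (Fin r → ℕ) → (Fin r → ℕ) → Prop)
    (h : ∀ X Y, p X Y → q X Y) : NN r m p ≤ NN r m q := by
  unfold NN
  have h1 : {x : (Fin r → Fin (2 ^ m)) × (Fin r → Fin (2 ^ m)) |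
      p (fun i => x.1 i) (fun i => x.2 i)}.ncard ≤
      {x : (Fin r → Fin (2 ^ m)) × (Fin r → Fin (2 ^ m)) |
      q (fun i => x.1 i) (fun i => x.2 i)}.ncard :=
    Set.ncard_le_ncard (fun x hx => h _ _ hx) (Set.toFinite _)
  exact_mod_cast h1

/-- (MNY) many blocks. -/
theorem pf_MNY (LOW : T_LOW) (LBD : T_LBD) (BIN : T_BIN) : T_MNY := by
  intro ε hε
  obtain ⟨n₀, hn₀⟩ := exp_vs_sq ε hε
  refine ⟨n₀, fun n hn m r b hm hb1 hb2 hr => ?_⟩
  have hexp := hn₀ n hn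
  obtain ⟨k, hk, hp, h3⟩ := BIN n b hb1 hb2
  set p : ℝ := (n.choose k : ℝ) / 2 ^ n with hpdef
  have hnn : (0 : ℝ) ≤ (n : ℝ) := Nat.cast_nonneg n
  have hn1 : (0 : ℝ) < (n : ℝ) + 1 := by linarith
  have hka : (0 : ℝ) < (2 : ℝ) ^ (-(ka b * n)) := by positivity
  have hp0 : (0 : ℝ) < p := lt_of_lt_of_le (by positivity) hp
  have hr0 : (0 : ℝ) < (r : ℝ) := lt_of_lt_of_le (by positivity) hr
  have hE : (0 : ℝ) < (2 : ℝ) ^ (ε * n) := by positivity
  have hE1 : 144 * ((n : ℝ) + 1) ≤ (2 : ℝ) ^ (ε * n) := by nlinarith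
  have hE2 : 18 * (n : ℝ) * ((n : ℝ) + 1) ≤ (2 : ℝ) ^ (ε * n) := by nlinarith
  -- the product
  have hrp : (2 : ℝ) ^ (ε * n) / (3 * (n + 1)) ≤ r * p := by
    have e1 : (2 : ℝ) ^ ((ka b + ε) * n) * ((2 : ℝ) ^ (-(ka b * n)) / (3 * (n + 1))) =
        (2 : ℝ) ^ (ε * n) / (3 * (n + 1)) := by
      rw [← mul_div_assoc, ← Real.rpow_add (by norm_num)]
      congr 2
      ring
    rw [← e1]
    exact mul_le_mul hr hp (by positivity) hr0.le
  have hrpn : (n : ℝ) ≤ r * p / 6 := by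
    have h4 : (n : ℝ) ≤ (2 : ℝ) ^ (ε * n) / (3 * (n + 1)) / 6 := by
      rw [div_div, le_div_iff₀ (by positivity)]
      nlinarith
    have h5 := div_le_div_of_nonneg_right hrp (show (0 : ℝ) ≤ 6 by norm_num)
    linarith
  -- containment
  have hsub : NN r m (fun X Y => ¬ ((r : ℝ) * 2 ^ m * 2 ^ ((mu b - ε) * n) ≤ LL (ru n X Y) ∧
      ∃ i, 2 ^ (m - 1) ≤ Y i)) ≤
      NN r m (fun X Y => (nk n m k X Y : ℝ) ≤ r * ((n.choose k : ℝ) / 2 ^ n) / 8) := by
    apply NN_mono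
    intro X Y hXY
    by_contra hcon
    rw [not_le] at hcon
    apply hXY
    obtain ⟨hL, hY⟩ := LBD r n m k X Y hm
    have hnk : (0 : ℝ) < (nk n m k X Y : ℝ) := lt_trans (by positivity) hcon
    have hnk1 : 1 ≤ nk n m k X Y := by
      have : 0 < nk n m k X Y := by exact_mod_cast hnk
      exact this
    refine ⟨?_, hY hnk1⟩
    refine le_trans ?_ hL
    have a1 : (r : ℝ) * 2 ^ m * ((2 : ℝ) ^ ((mu b - ε) * n)) ≤
        (r : ℝ) * 2 ^ m * ((2 : ℝ) ^ (mu b * n) / (144 * (n + 1))) := by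
      apply mul_le_mul_of_nonneg_left _ (by positivity)
      have e2 : (2 : ℝ) ^ ((mu b - ε) * n) = (2 : ℝ) ^ (mu b * n) / (2 : ℝ) ^ (ε * n) := by
        rw [← Real.rpow_sub (by norm_num)]
        congr 1
        ring
      rw [e2]
      exact div_le_div_of_nonneg_left (by positivity) (by positivity) hE1
    refine le_trans a1 ?_
    have hlog : (3 : ℝ) ^ (b * n) = (2 : ℝ) ^ (b * Real.logb 2 3 * n) := by
      have h6 : (3 : ℝ) = (2 : ℝ) ^ (Real.logb 2 3) :=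
        (Real.rpow_logb (by norm_num) (by norm_num) (by norm_num)).symm
      conv_lhs => rw [h6]
      rw [← Real.rpow_mul (by norm_num)]
      congr 1
      ring
    have e3 : (2 : ℝ) ^ (mu b * n) = (2 : ℝ) ^ (-(ka b * n)) * (3 : ℝ) ^ (b * n) / 2 ^ n := by
      rw [hlog, ← Real.rpow_natCast 2 n, ← Real.rpow_add (by norm_num),
        ← Real.rpow_sub (by norm_num)]
      congr 1
      unfold mu ka
      ring
    have e4 : (r : ℝ) * 2 ^ m * ((2 : ℝ) ^ (mu b * n) / (144 * (n + 1))) =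
        (r * ((2 : ℝ) ^ (-(ka b * n)) / (3 * (n + 1))) / 8) * 2 ^ m *
          ((3 : ℝ) ^ (b * n) / 3) / 2 ^ (n + 1) := by
      rw [e3, pow_succ]
      field_simp
      norm_num
    rw [e4]
    have a2 : (r * ((2 : ℝ) ^ (-(ka b * n)) / (3 * (n + 1))) / 8) ≤ (nk n m k X Y : ℝ) := by
      refine le_trans ?_ hcon.le
      apply div_le_div_of_nonneg_right _ (by norm_num)
      exact mul_le_mul_of_nonneg_left hp hr0.le
    apply div_le_div_of_nonneg_right _ (by positivity)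
    apply mul_le_mul _ h3 (by positivity) (by positivity)
    exact mul_le_mul_of_nonneg_right a2 (by positivity)
  refine le_trans hsub (le_trans (LOW r n m k (by omega) hk) ?_)
  apply mul_le_mul_of_nonneg_right _ (by positivity)
  have f1 : Real.exp (-(r * ((n.choose k : ℝ) / 2 ^ n) / 6)) ≤ Real.exp (-(n : ℝ)) := by
    apply Real.exp_le_exp.2
    linarith
  refine le_trans f1 ?_
  have f2 : (2 : ℝ) ^ (-(n : ℝ)) = Real.exp (Real.log 2 * (-(n : ℝ))) := by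
    rw [Real.rpow_def_of_pos (by norm_num)]
  rw [f2]
  apply Real.exp_le_exp.2
  have h7 : Real.log 2 ≤ 1 := by
    have := Real.log_two_lt_d9
    linarith
  nlinarith

end Pool.Agent.H89.PT
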